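import Pool.Agent.helper96.DP.SpecD
import Pool.Agent.helper96.DP.Basic
import Pool.Agent.helper33.DP.CG

/-!
# Project dp, module DE: different crossing interface edges are separated
-/

namespace DP

theorem DE_sub (s : Bool) (x : V) (n n' : ℕ) : AN s x n n' ⊆ HS s x n := by
  intro v hv
  cases s
  · simp only [AN, HS, Bool.false_eq_true, if_false, ann, Set.mem_ofPred_eq] at hv ⊢
    exact hv.1
  · simp only [AN, HS, if_true, ann, box, Set.mem_ofPred_eq] at hv ⊢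
    exact hv.2

theorem DE_far {s : Bool} {c : V → Bool} {x y u : V} {n n' r : ℕ} (hg : gap s n n' r)
    (hy : y ∈ bd x n) (h : crX s c x n n' u) : ∃ v, r ≤ sd y v ∧ Conn c (c u) (HS s x n) u v := by
  have hy' : sd x y = n := hy
  cases s
  · simp only [gap, crX, inX, Bool.false_eq_true, if_false] at hg h
    obtain ⟨-, v, hv, h1⟩ := h
    have hv' : sd x v = n' := hv
    have h2 := sd_triangle x y v
    refine ⟨v, by omega, h1.mono ?_⟩
    exact DE_sub false x n n'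
  · simp only [gap, crX, outX, if_true] at hg h
    obtain ⟨-, v, hv, h1⟩ := h
    have hv' : sd x v = n' := hv
    have h2 := sd_triangle x v y
    have h3 := sd_comm v y
    refine ⟨v, by omega, h1.mono ?_⟩
    exact DE_sub true x n n'

theorem DE_arm {s : Bool} {c : V → Bool} {x y u : V} {n n' r : ℕ} (hg : gap s n n' r)
    (hy : y ∈ bd x n) (h : crX s c x n n' u) (hu : sd y u ≤ r) :
    ∃ z, sd y z = r ∧ Conn c (c u) (HS s x n ∩ box y r) u z := by
  obtain ⟨v, hv, h1⟩ := DE_far hg hy h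
  obtain ⟨w, hw, h2, -⟩ := Con.exit h1 hu hv
  refine ⟨w, hw, Con.mono ?_ h2⟩
  rintro t ⟨⟨ht1, ht2⟩, ht3⟩
  exact ⟨⟨ht1, ht3⟩, ht2⟩

/-- A path is connected to each of its sites. -/
theorem DE_path_con {W : Set V} {l : List V} {u v t : V} (h : IsPath W l u v) (ht : t ∈ l) :
    Con W u t := by
  induction l generalizing u with
  | nil => simp at ht
  | cons a l ih =>
    obtain ⟨h1, h2, h3, h4⟩ := h
    simp only [List.head?_cons, Option.some.injEq] at h1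
    subst h1
    rcases List.mem_cons.1 ht with rfl | ht
    · exact Con.refl (h4 _ (by simp))
    · cases l with
      | nil => simp at ht
      | cons b l =>
        rw [List.getLast?_cons_cons] at h2
        rw [List.isChain_cons_cons] at h3
        have hb : Con W b t := ih ⟨rfl, h2, h3.2, fun w hw => h4 w (List.mem_cons_of_mem _ hw)⟩ ht
        exact (Con.single (h4 a (by simp)) h3.1 hb.1).trans hb

/-- The cyclic order by positions. -/
theorem DE_onArc {x u v w : V} {n : ℕ} (hu : u ∈ bd x n) (hv : v ∈ bd x n) (hw : w ∈ bd x n)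
    (h : (pos x n u ≤ pos x n v ∧ pos x n u ≤ pos x n w ∧ pos x n w ≤ pos x n v) ∨
      (pos x n v < pos x n u ∧ (pos x n u ≤ pos x n w ∨ pos x n w ≤ pos x n v))) :
    onArc x n u v w := by
  refine ⟨hu, hv, hw, ?_⟩
  split_ifs with h1
  · omega
  · omega

theorem DE_core (hTO : TO_stmt) (hTI : TI_stmt) {s : Bool} {c : V → Bool} {x : V} {n n' r₂ r₃ : ℕ}
    (hx : Even (x.1 + x.2)) (hg : gap s n n' r₃) (h8 : 8 ≤ r₂) (h23 : 8 * r₂ ≤ r₃) (h3n : r₃ ≤ n)
    {u₁ u₂ u₃ : V} {k : Bool} (hnx : nxt x n u₁ u₂) (h3 : u₃ ∈ bd x n)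
    (harc : onArc x n u₁ u₃ u₂) (hsmall : ∀ w, onArc x n u₁ u₃ w → sd u₂ w < r₃)
    (hd1 : sd u₂ u₁ ≤ r₂) (hd3 : sd u₂ u₃ ≤ r₂)
    (c1 : c u₁ = k) (c2 : c u₂ = !k) (c3 : c u₃ = k) (x1 : crX s c x n n' u₁)
    (x2 : crX s c x n n' u₂) (x3 : crX s c x n n' u₃) : Bad s c x n r₂ r₃ := by
  have hu2 : u₂ ∈ bd x n := hnx.2.1
  obtain ⟨z, hz, hcz⟩ := DE_arm hg hu2 x2 (by rw [sd_self]; omega)
  obtain ⟨z1, hz1, hcz1⟩ := DE_arm hg hu2 x1 (by omega)
  obtain ⟨z3, hz3, hcz3⟩ := DE_arm hg hu2 x3 (by omega)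
  rw [c1] at hcz1
  rw [c2] at hcz
  rw [c3] at hcz3
  obtain ⟨w, hw, hw1, hw2⟩ := Con.exit (x := u₂) (m := r₂) hcz3 hd3 (by omega)
  have hnot : ¬ Conn c k (HS s x n ∩ box u₂ r₃) u₁ u₃ := by
    cases s
    · exact hTI c k x n u₂ r₃ hx hu2 (by omega) h3n u₁ u₂ u₃ z harc hsmall c1 c2 c3 hz hcz
    · exact hTO c k x n u₂ r₃ hx hu2 (by omega) h3n u₁ u₂ u₃ z harc hsmall c1 c2 c3 hz hcz
  have hw3 : Conn c k (HS s x n ∩ box u₂ r₃) u₃ w := Con.mono Set.inter_subset_left hw1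
  obtain ⟨l, hl⟩ := con_iff_path.1 hcz1
  obtain ⟨l', hl'⟩ := con_iff_path.1 (show Con {v | v ∈ HS s x n ∩ box u₂ r₃ ∧ c v = k} w z3 from hw2)
  refine ⟨u₁, u₂, k, Or.inl hnx, c1, c2, ⟨z, hz, hcz⟩, l, l', z1, w, z3, hz1, hw, hz3, hl, hl', ?_⟩
  intro t ht ht'
  apply hnot
  -- u₁ to t along l, t to w along l'
  have e1 : Con {v | v ∈ HS s x n ∩ box u₂ r₃ ∧ c v = k} u₁ t := DE_path_con hl ht
  have e2 : Con {v | v ∈ HS s x n ∩ box u₂ r₃ ∧ c v = k} w t := DE_path_con hl' ht'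
  exact e1.trans (e2.symm.trans hw3.symm)

/-- Facts on positions. -/
theorem DE_pos {x : V} {n : ℕ} (hn : 1 ≤ n) {u v : V} (hu : u ∈ bd x n) (hv : v ∈ bd x n) :
    (0 < pos x n u ∧ pos x n u ≤ 8 * n) ∧ (0 < pos x n v ∧ pos x n v ≤ 8 * n) ∧
      ((pos x n u ≤ pos x n v ∧ (sd u v : ℤ) ≤ pos x n v - pos x n u ∧
          (sd u v : ℤ) ≤ 8 * n - (pos x n v - pos x n u) ∧
          (pos x n v - pos x n u ≤ 2 * sd u v ∨ 8 * n - (pos x n v - pos x n u) ≤ 2 * sd u v)) ∨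
        (pos x n v ≤ pos x n u ∧ (sd u v : ℤ) ≤ pos x n u - pos x n v ∧
          (sd u v : ℤ) ≤ 8 * n - (pos x n u - pos x n v) ∧
          (pos x n u - pos x n v ≤ 2 * sd u v ∨ 8 * n - (pos x n u - pos x n v) ≤ 2 * sd u v))) := by
  obtain ⟨h1, h2, h3⟩ := CG1 x n hn
  obtain ⟨h4, h5, h6⟩ := CG2 x n hn u hu v hv
  refine ⟨h1 u hu, h1 v hv, ?_⟩
  rcases abs_cases (pos x n u - pos x n v) with ⟨h7, h8⟩ | ⟨h7, h8⟩
  · right
    rw [h7] at h4 h5 h6
    refine ⟨by omega, h4, h5, ?_⟩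
    rcases min_le_iff.1 h6 with h9 | h9
    · exact Or.inl h9
    · exact Or.inr h9
  · left
    rw [h7] at h4 h5 h6
    refine ⟨by omega, by omega, by omega, ?_⟩
    rcases min_le_iff.1 h6 with h9 | h9
    · left; omega
    · right; omega

theorem DE_fwd (hTO : TO_stmt) (hTI : TI_stmt) {s : Bool} {c : V → Bool} {x : V} {n n' r₂ r₃ : ℕ}
    (hx : Even (x.1 + x.2)) (hg : gap s n n' r₃) (h8 : 8 ≤ r₂) (h23 : 8 * r₂ ≤ r₃) (h3n : r₃ ≤ n)
    {p p' q q' : V} (hp : nxt x n p p') (hq : nxt x n q q')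
    (hD : (pos x n p < pos x n q ∧ pos x n q - pos x n p ≤ 2 * r₂ - 6) ∨
      (pos x n q < pos x n p ∧ pos x n q + 8 * n - pos x n p ≤ 2 * r₂ - 6))
    (hd : sd p q ≤ r₂ - 3) (cp : c p ≠ c p') (cq : c q ≠ c q')
    (x1 : crX s c x n n' p) (x2 : crX s c x n n' p')
    (x3 : crX s c x n n' q) (x4 : crX s c x n n' q') : Bad s c x n r₂ r₃ := by
  have hn : 1 ≤ n := by omega
  have a1 : sd p' p = 1 := (CG3 x n p p' hn hp).1.symm.1
  have a2 : sd q q' = 1 := (CG3 x n q q' hn hq).1.1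
  have t1 := sd_triangle p' p q
  have t2 := sd_triangle p' q q'
  obtain ⟨hp1, hp2, hp3⟩ := hp
  obtain ⟨hq1, hq2, hq3⟩ := hq
  obtain ⟨b1, b2, -⟩ := DE_pos hn hp1 hp2
  obtain ⟨b3, b4, -⟩ := DE_pos hn hq1 hq2
  -- the general step for `u₃ = q` or `u₃ = q'`
  have key : ∀ u₃ : V, u₃ ∈ bd x n → c u₃ = c p → crX s c x n n' u₃ → sd p' u₃ ≤ r₂ →
      ((pos x n p < pos x n u₃ ∧ pos x n u₃ - pos x n p ≤ 2 * r₂ - 5) ∨
      (pos x n u₃ < pos x n p ∧ pos x n u₃ + 8 * n - pos x n p ≤ 2 * r₂ - 5)) →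
      Bad s c x n r₂ r₃ := by
    intro u₃ h3 c3 x3' d3 hD'
    refine DE_core hTO hTI hx hg h8 h23 h3n (u₁ := p) (u₂ := p') (u₃ := u₃) (k := c p)
      ⟨hp1, hp2, hp3⟩ h3 ?_ ?_ (by omega) d3 rfl ?_ c3 x1 x2 x3'
    · apply DE_onArc hp1 h3 hp2
      have b5 := (DE_pos hn h3 h3).1
      omega
    · intro w hw
      obtain ⟨-, -, hw1, hw2⟩ := hw
      obtain ⟨-, b6, b7⟩ := DE_pos hn hp2 hw1
      have b5 := (DE_pos hn h3 h3).1
      split_ifs at hw2 with h9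
      · omega
      · omega
    · cases h : c p <;> cases h' : c p' <;> simp_all
  by_cases hc : c q = c p
  · exact key q hq1 hc x3 (by omega) (by omega)
  · have hc' : c q' = c p := by
      cases h : c p <;> cases h' : c q <;> cases h'' : c q' <;> simp_all
    refine key q' hq2 hc' x4 (by omega) (by omega)

theorem DE (hTO : TO_stmt) (hTI : TI_stmt) : DE_stmt := by
  intro s c x n n' r₂ r₃ hx hn' hg h8 h23 h3n hB a b a' b' hab hab' cab cab' xa xb xa' xb' hne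
  by_contra hlt
  apply hB
  have hn : 1 ≤ n := by omega
  have hsymm := sd_comm a a'
  -- for edges given by their first end points
  have key : ∀ p p' q q' : V, nxt x n p p' → nxt x n q q' → p ≠ q → sd p q ≤ r₂ - 3 →
      c p ≠ c p' → c q ≠ c q' → crX s c x n n' p → crX s c x n n' p' → crX s c x n n' q →
      crX s c x n n' q' → Bad s c x n r₂ r₃ := by
    intro p p' q q' hp hq hpq hd cp cq x1 x2 x3 x4
    have h1 := (CG1 x n hn).2.1 p hp.1 q hq.1
    have h2 : pos x n p ≠ pos x n q := fun h => hpq (h1 h)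
    obtain ⟨b1, b2, b3⟩ := DE_pos hn hp.1 hq.1
    have hd' := sd_comm p q
    by_cases hD : (pos x n p < pos x n q ∧ pos x n q - pos x n p ≤ 2 * r₂ - 6) ∨
      (pos x n q < pos x n p ∧ pos x n q + 8 * n - pos x n p ≤ 2 * r₂ - 6)
    · exact DE_fwd hTO hTI hx hg h8 h23 h3n hp hq hD hd cp cq x1 x2 x3 x4
    · refine DE_fwd hTO hTI hx hg h8 h23 h3n hq hp ?_ (by omega) cq cp x3 x4 x1 x2
      omega
  rcases hab with h1 | h1 <;> rcases hab' with h2 | h2
  · refine key a b a' b' h1 h2 ?_ (by omega) cab cab' xa xb xa' xb'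
    rintro rfl
    apply hne
    left
    refine ⟨rfl, ?_⟩
    have := (CG1 x n hn).2.1 b h1.2.1 b' h2.2.1
    apply this
    have e1 := h1.2.2
    have e2 := h2.2.2
    have e3 := (DE_pos hn h1.2.1 h2.2.1)
    have e4 := (DE_pos hn h1.1 h1.1).1
    omega
  · have d1 := (CG3 x n b' a' hn h2).1.symm.1
    have t1 := sd_triangle a a' b'
    refine key a b b' a' h1 h2 ?_ (by omega) cab (Ne.symm cab') xa xb xb' xa'
    rintro rfl
    apply hne
    right
    refine ⟨rfl, ?_⟩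
    have := (CG1 x n hn).2.1 b h1.2.1 a' h2.2.1
    apply this
    have e1 := h1.2.2
    have e2 := h2.2.2
    have e3 := (DE_pos hn h1.2.1 h2.2.1)
    have e4 := (DE_pos hn h1.1 h1.1).1
    omega
  · have d1 := (CG3 x n b a hn h1).1.1
    have t1 := sd_triangle b a a'
    refine key b a a' b' h1 h2 ?_ (by omega) (Ne.symm cab) cab' xb xa xa' xb'
    rintro rfl
    apply hne
    right
    refine ⟨?_, rfl⟩
    have := (CG1 x n hn).2.1 a h1.2.1 b' h2.2.1
    apply this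
    have e1 := h1.2.2
    have e2 := h2.2.2
    have e3 := (DE_pos hn h1.2.1 h2.2.1)
    have e4 := (DE_pos hn h1.1 h1.1).1
    omega
  · have d1 := (CG3 x n b a hn h1).1.1
    have d2 := (CG3 x n b' a' hn h2).1.symm.1
    have t1 := sd_triangle b a a'
    have t2 := sd_triangle b a' b'
    refine key b a b' a' h1 h2 ?_ (by omega) (Ne.symm cab) (Ne.symm cab') xb xa xb' xa'
    rintro rfl
    apply hne
    left
    refine ⟨?_, rfl⟩
    have := (CG1 x n hn).2.1 a h1.2.1 a' h2.2.1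
    apply this
    have e1 := h1.2.2
    have e2 := h2.2.2
    have e3 := (DE_pos hn h1.2.1 h2.2.1)
    have e4 := (DE_pos hn h1.1 h1.1).1
    omega

end DP
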